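import Pool.Agent.Helper33.EB.U

/-!
The maximum number of cycles of graphs of girth at least `g`, up to an absolute constant to the
power `n`, in terms of the maximum number of edges, uniformly in the girth.
-/

/-- There is an absolute constant `a > 0` such that for all `3 ≤ g ≤ n` the largest number
`c(n,g)` of cycles of a graph on `n` vertices of girth at least `g` satisfies
`(a * ex(n,g) / n) ^ n ≤ c(n,g) ≤ (3 * ex(n,g) / n) ^ n`, where `ex(n,g)` is the largest number
of edges of such a graph. -/
theorem Pool.Agent.Results.MP_eb8854_co.EdgeOrder.result :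
    ∃ a : ℝ, 0 < a ∧ ∀ n g : ℕ, 3 ≤ g → g ≤ n →
      (a * Pool.Agent.Helper72.Cyc.maxEdges n g / n) ^ n ≤
          (Pool.Agent.Helper72.Cyc.maxCycles n g : ℝ) ∧
        (Pool.Agent.Helper72.Cyc.maxCycles n g : ℝ) ≤
          (3 * Pool.Agent.Helper72.Cyc.maxEdges n g / n) ^ n :=
  Pool.Agent.Helper33.EB.thmU
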