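import Pool.Agent.Helper64.Sharp.FinalE

/-!
The exact exponential growth rate of the maximum number of cycles of graphs of girth at least
6, 8 and 12, and sharp upper bounds for all girths.
-/

open Filter Topology

/-- Write `c = c(n,g)` and `e = ex(n,g)` for the largest numbers of cycles and of edges of a
graph on `n` vertices of girth at least `g`.
(1) For `k = 2, 3, 5` and `g = 2k + 2`: `c^(1/n) / n^(1/k)` tends to `2^(-1/k) / e`, and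
`c^(1/n) / (ex / n)` tends to `2 / e`.
(2) For every `g ≥ 3`: `c^(1/n) ≤ (2 / e + δ) ex / n` for large `n`.
(3) For all `k ≥ 1` and `g ≥ 2k + 2`: `c^(1/n) ≤ (2^(-1/k) / e + δ) n^(1/k)` for large `n`.
(4) For all `k ≥ 1` and `g ≥ 2k + 1`: `c^(1/n) ≤ (1 / e + δ) n^(1/k)` for large `n`.
(5) For `k = 2, 3, 5` and `g = 2k + 1`: `c^(1/n) ≥ (2^(-1/k) / e - δ) n^(1/k)` for large `n`. -/
theorem Pool.Agent.Results.MP_eb8854_co.SharpConstant.result :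
    (∀ k : ℕ, k = 2 ∨ k = 3 ∨ k = 5 →
      Tendsto (fun n : ℕ => (Pool.Agent.Helper72.Cyc.maxCycles n (2 * k + 2) : ℝ) ^ ((1 : ℝ) / n) /
        (n : ℝ) ^ ((1 : ℝ) / k)) atTop (𝓝 ((2 : ℝ) ^ (-(1 : ℝ) / k) / Real.exp 1)) ∧
      Tendsto (fun n : ℕ => (Pool.Agent.Helper72.Cyc.maxCycles n (2 * k + 2) : ℝ) ^ ((1 : ℝ) / n) /
        ((Pool.Agent.Helper72.Cyc.maxEdges n (2 * k + 2) : ℝ) / n)) atTop
        (𝓝 (2 / Real.exp 1))) ∧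
    (∀ g : ℕ, 3 ≤ g → ∀ δ : ℝ, 0 < δ → ∀ᶠ n : ℕ in atTop,
      (Pool.Agent.Helper72.Cyc.maxCycles n g : ℝ) ^ ((1 : ℝ) / n) /
        ((Pool.Agent.Helper72.Cyc.maxEdges n g : ℝ) / n) ≤ 2 / Real.exp 1 + δ) ∧
    (∀ k g : ℕ, 1 ≤ k → 2 * k + 2 ≤ g → ∀ δ : ℝ, 0 < δ → ∀ᶠ n : ℕ in atTop,
      (Pool.Agent.Helper72.Cyc.maxCycles n g : ℝ) ^ ((1 : ℝ) / n) / (n : ℝ) ^ ((1 : ℝ) / k) ≤
        (2 : ℝ) ^ (-(1 : ℝ) / k) / Real.exp 1 + δ) ∧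
    (∀ k g : ℕ, 1 ≤ k → 2 * k + 1 ≤ g → ∀ δ : ℝ, 0 < δ → ∀ᶠ n : ℕ in atTop,
      (Pool.Agent.Helper72.Cyc.maxCycles n g : ℝ) ^ ((1 : ℝ) / n) / (n : ℝ) ^ ((1 : ℝ) / k) ≤
        1 / Real.exp 1 + δ) ∧
    (∀ k : ℕ, k = 2 ∨ k = 3 ∨ k = 5 → ∀ δ : ℝ, 0 < δ → ∀ᶠ n : ℕ in atTop,
      (2 : ℝ) ^ (-(1 : ℝ) / k) / Real.exp 1 - δ ≤
        (Pool.Agent.Helper72.Cyc.maxCycles n (2 * k + 1) : ℝ) ^ ((1 : ℝ) / n) /
          (n : ℝ) ^ ((1 : ℝ) / k)) := by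
  refine ⟨fun k hk => ⟨Pool.Agent.Helper64.Sharp.quo_tendsto hk,
    Pool.Agent.Helper64.Sharp.quoE_tendsto hk⟩,
    fun g hg δ hδ => Pool.Agent.Helper64.Sharp.quoE_upper hg hδ, ?_, ?_, ?_⟩
  · intro k g hk hg δ hδ
    exact Pool.Agent.Helper64.Sharp.quo_upper (k := k) (g := g) (r := 2) hk (by omega)
      (Or.inl ⟨by omega, rfl⟩) hδ
  · intro k g hk hg δ hδ
    have h := Pool.Agent.Helper64.Sharp.quo_upper (k := k) (g := g) (r := 1) hk (by omega)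
      (Or.inr ⟨by omega, rfl⟩) hδ
    rw [Real.one_rpow] at h
    exact h
  · intro k hk δ hδ
    filter_upwards [Pool.Agent.Helper64.Sharp.quo_lower hk hδ] with n hn
    exact hn.trans (Pool.Agent.Helper64.Sharp.quo_anti (by omega) n)
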