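import Pool.Agent.Helper86.TF.Final

/-!
The largest number of cycles of a triangle-free graph on `n` vertices, for every `n`.
-/

open SimpleGraph in
/-- For every `n`, the largest number `c(n,4)` of cycles of a graph on `n` vertices of girth at
least `4` is `∑_{k = 2}^{⌊n/2⌋} (⌊n/2⌋)_k (⌈n/2⌉)_k / (2k)`, the number of cycles of the balanced
complete bipartite graph `T_2(n)`, and for `n ≥ 4` the graph `T_2(n)` is the only one (up to
isomorphism) attaining it. -/
theorem Pool.Agent.Results.MP_eb8854_co.TriangleFree.result (n : ℕ) :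
    (Pool.Agent.Helper72.Cyc.maxCycles n 4 : ℚ) = ∑ k ∈ Finset.Icc 2 (n / 2),
      ((n / 2).descFactorial k * ((n + 1) / 2).descFactorial k : ℚ) / (2 * k) ∧
    Pool.Agent.Helper72.Cyc.maxCycles n 4 = Pool.Agent.Helper72.Cyc.numCycles
      (completeBipartiteGraph (Fin (n / 2)) (Fin ((n + 1) / 2))) ∧
    (4 ≤ n → ∀ G : SimpleGraph (Fin n), (4 : ℕ∞) ≤ G.egirth →
      Pool.Agent.Helper72.Cyc.numCycles G = Pool.Agent.Helper72.Cyc.maxCycles n 4 →
      Nonempty (G ≃g completeBipartiteGraph (Fin (n / 2)) (Fin ((n + 1) / 2)))) :=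
  Pool.Agent.Helper86.TF.main n
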