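import Pool.Agent.Helper64.Cyc.Final
import Pool.Agent.Helper64.Cyc.ExSmall
import Pool.Agent.Helper33.EB.U

/-!
The order of magnitude of the logarithm of the maximum number of cycles of graphs with `n`
vertices and girth at least `g`, uniformly in both parameters, and in terms of the maximum number
of edges of such graphs.
-/

/-- There are absolute constants `a, b > 0` such that for all `g ≥ 3` and all `n` the largest
number `c(n,g)` of cycles of a graph on `n` vertices of girth at least `g` satisfies: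
`c(n,g) = 0` if `n < g`;
`c(n,g) = 1` if `g ≤ n` and `2n + 2 < 3g`;
`a (n/g) log(n/g) ≤ log c(n,g) ≤ b (n/g) log(n/g)` in all other cases;
and `a n log(ex(n,g)/n) ≤ log c(n,g) ≤ b n log(ex(n,g)/n)` for all `n ≥ g`, where `ex(n,g)` is
the largest number of edges of a graph on `n` vertices of girth at least `g`. -/
theorem Pool.Agent.Results.MP_eb8854_co.UniformOrder.result :
    ∃ a b : ℝ, 0 < a ∧ 0 < b ∧ ∀ n g : ℕ, 3 ≤ g →
      (n < g → Pool.Agent.Helper72.Cyc.maxCycles n g = 0) ∧
      (g ≤ n → 2 * n + 2 < 3 * g → Pool.Agent.Helper72.Cyc.maxCycles n g = 1) ∧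
      (3 * g ≤ 2 * n + 2 →
        a * ((n : ℝ) / g * Real.log ((n : ℝ) / g)) ≤
          Real.log (Pool.Agent.Helper72.Cyc.maxCycles n g : ℝ) ∧
        Real.log (Pool.Agent.Helper72.Cyc.maxCycles n g : ℝ) ≤
          b * ((n : ℝ) / g * Real.log ((n : ℝ) / g))) ∧
      (g ≤ n →
        a * (n * Real.log ((Pool.Agent.Helper72.Cyc.maxEdges n g : ℝ) / n)) ≤
          Real.log (Pool.Agent.Helper72.Cyc.maxCycles n g : ℝ) ∧
        Real.log (Pool.Agent.Helper72.Cyc.maxCycles n g : ℝ) ≤
          b * (n * Real.log ((Pool.Agent.Helper72.Cyc.maxEdges n g : ℝ) / n))) := by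
  obtain ⟨c, hc, hU⟩ := Pool.Agent.Helper33.EB.thmU
  have hE : Pool.Agent.Helper64.Cyc.EdgeBound c := fun n g h1 h2 => (hU n g h1 h2).1
  obtain ⟨a, ha, h1⟩ := Pool.Agent.Helper64.Cyc.lower_all hc hE
  obtain ⟨b, hb, h2⟩ := Pool.Agent.Helper64.Cyc.upper_all
  obtain ⟨α, hα, h3⟩ := Pool.Agent.Helper64.Cyc.ex_lower_all
  obtain ⟨β, hβ, h4⟩ := Pool.Agent.Helper64.Cyc.ex_upper_all
  refine ⟨min a (a / β), max b (b / α), by positivity, by positivity, ?_⟩
  intro n g hg
  refine ⟨Pool.Agent.Helper64.Cyc.maxCycles_eq_zero, ?_, ?_, ?_⟩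
  · intro hgn hn
    exact le_antisymm (Pool.Agent.Helper64.Cyc.maxCycles_le_one hn)
        (Pool.Agent.Helper64.Cyc.one_le_maxCycles hg hgn)
  · intro hn
    have k1 := h1 g n hg hn
    have k2 := h2 g n hg hn
    have hx := Pool.Agent.Helper64.Cyc.quot_ge hg hn
    have hx0 : 0 ≤ (n : ℝ) / g * Real.log ((n : ℝ) / g) :=
      mul_nonneg (by positivity) (Real.log_nonneg (by linarith))
    rw [mul_assoc] at k1 k2
    exact ⟨(mul_le_mul_of_nonneg_right (min_le_left _ _) hx0).trans k1,
      k2.trans (mul_le_mul_of_nonneg_right (le_max_left _ _) hx0)⟩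
  · intro hgn
    rcases Nat.lt_or_ge (2 * n + 2) (3 * g) with hn | hn
    · have e1 : Pool.Agent.Helper72.Cyc.maxCycles n g = 1 :=
        le_antisymm (Pool.Agent.Helper64.Cyc.maxCycles_le_one hn)
          (Pool.Agent.Helper64.Cyc.one_le_maxCycles hg hgn)
      have e2 : Pool.Agent.Helper72.Cyc.maxEdges n g = n :=
        le_antisymm (Pool.Agent.Helper64.Cyc.maxEdges_le_self hn)
          (Pool.Agent.Helper64.Cyc.self_le_maxEdges hg hgn)
      have hn0 : (n : ℝ) ≠ 0 := by
        have : 0 < n := by omega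
        exact_mod_cast this.ne'
      rw [e1, e2, div_self hn0]
      simp
    · have k1 := h1 g n hg hn
      have k2 := h2 g n hg hn
      have k3 := h3 g n hg hn
      have k4 := h4 g n hg hn
      rw [mul_assoc] at k1 k2 k3 k4
      have hx := Pool.Agent.Helper64.Cyc.quot_ge hg hn
      have hx0 : 0 ≤ (n : ℝ) / g * Real.log ((n : ℝ) / g) :=
        mul_nonneg (by positivity) (Real.log_nonneg (by linarith))
      have hy0 : 0 ≤ (n : ℝ) *
          Real.log ((Pool.Agent.Helper72.Cyc.maxEdges n g : ℝ) / n) :=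
        (mul_nonneg hα.le hx0).trans k3
      constructor
      · refine (mul_le_mul_of_nonneg_right (min_le_right _ _) hy0).trans
          (le_trans ?_ k1)
        have := mul_le_mul_of_nonneg_left k4 (div_pos ha hβ).le
        refine this.trans (le_of_eq ?_)
        field_simp
      · refine (k2.trans ?_).trans (mul_le_mul_of_nonneg_right (le_max_right _ _) hy0)
        have := mul_le_mul_of_nonneg_left k3 (div_pos hb hα).le
        refine le_trans (le_of_eq ?_) this
        field_simp
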